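import Pool.Agent.W842.KF.Stm

set_option autoImplicit false

/-!
# KF-BALL: balls and components
-/

namespace Pool.Agent.W378.KF

open Finset Pool.Agent.W842.KF

variable {V : Type} [Fintype V] {H : SimpleGraph V}

theorem bl_sub_succ (v : V) (s : ℕ) : bl H v s ⊆ bl H v (s + 1) := fun _ hx =>
  bl_succ.2 (Or.inl hx)

theorem bl_mono (v : V) {s t : ℕ} (h : s ≤ t) : bl H v s ⊆ bl H v t := by
  induction t, h using Nat.le_induction with
  | base => exact Subset.refl _
  | succ t _ ih => exact ih.trans (bl_sub_succ v t)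

theorem bl_self (v : V) (s : ℕ) : v ∈ bl H v s := bl_mono v (Nat.zero_le s) (bl_zero.2 rfl)

theorem bl_adj {v u : V} (h : H.Adj v u) : u ∈ bl H v 1 :=
  bl_succ.2 (Or.inr ⟨v, bl_zero.2 rfl, h⟩)

theorem bl_trans {v x y : V} {s t : ℕ} (hx : x ∈ bl H v s) (hy : y ∈ bl H x t) :
    y ∈ bl H v (s + t) := by
  induction t generalizing y with
  | zero => rw [bl_zero.1 hy]; exact hx
  | succ t ih =>
    rcases bl_succ.1 hy with h | ⟨z, hz, h⟩
    · exact bl_sub_succ v (s + t) (ih h)
    · exact bl_succ.2 (Or.inr ⟨z, ih hz, h⟩)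

theorem bl_symm {v u : V} {s : ℕ} (hu : u ∈ bl H v s) : v ∈ bl H u s := by
  induction s generalizing u with
  | zero => rw [bl_zero.1 hu]; exact bl_self v 0
  | succ s ih =>
    rcases bl_succ.1 hu with h | ⟨x, hx, h⟩
    · exact bl_sub_succ u s (ih h)
    · have h1 := bl_trans (bl_adj h.symm) (ih hx)
      rwa [Nat.add_comm] at h1

theorem card_shell (hH : ∀ u, (nb H u).card ≤ 2) (v : V) (s : ℕ) :
    ∀ F : Finset V, (∀ x, x ∈ F ↔ x ∈ bl H v (s + 1) ∧ x ∉ bl H v s) → F.card ≤ 2 := by
  classical
  induction s with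
  | zero =>
    intro F hF
    refine (card_le_card ?_).trans (hH v)
    intro x hx
    obtain ⟨h1, h2⟩ := (hF x).1 hx
    rcases bl_succ.1 h1 with h | ⟨z, hz, h⟩
    · exact absurd h h2
    · rw [bl_zero.1 hz] at h
      exact mem_nb.2 h
  | succ s ih =>
    intro F hF
    have h0 := ih (bl H v (s + 1) \ bl H v s) (fun x => mem_sdiff)
    have hsub : F ⊆ (bl H v (s + 1) \ bl H v s).biUnion
        (fun x => nb H x \ bl H v (s + 1)) := by
      intro y hy
      obtain ⟨h1, h2⟩ := (hF y).1 hy
      rcases bl_succ.1 h1 with h | ⟨x, hx, h⟩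
      · exact absurd h h2
      · refine mem_biUnion.2 ⟨x, mem_sdiff.2 ⟨hx, fun hx' => h2 ?_⟩,
          mem_sdiff.2 ⟨mem_nb.2 h, h2⟩⟩
        exact bl_succ.2 (Or.inr ⟨x, hx', h⟩)
    refine (card_le_card hsub).trans ((card_biUnion_le_card_mul _ _ 1 ?_).trans ?_)
    · intro x hx
      obtain ⟨h1, h2⟩ := mem_sdiff.1 hx
      rcases bl_succ.1 h1 with h | ⟨z, hz, h⟩
      · exact absurd h h2
      · have hz' : z ∈ nb H x := mem_nb.2 h.symm
        have h3 : nb H x \ bl H v (s + 1) ⊆ (nb H x).erase z := by
          intro y hy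
          obtain ⟨h4, h5⟩ := mem_sdiff.1 hy
          refine mem_erase.2 ⟨?_, h4⟩
          rintro rfl
          exact h5 (bl_sub_succ v s hz)
        have h4 := card_le_card h3
        rw [card_erase_of_mem hz'] at h4
        have := hH x
        omega
    · rw [Nat.mul_one]
      exact h0

theorem t_ball : S_BALL := by
  classical
  intro V _ H hH v s
  induction s with
  | zero =>
    simp [bl]
  | succ s ih =>
    have h0 := card_shell hH v s (bl H v (s + 1) \ bl H v s) (fun x => mem_sdiff)
    have h1 := card_sdiff_add_card_eq_card (bl_sub_succ (H := H) v s)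
    omega

theorem t_bmeet : S_BMEET := by
  intro V _ H v w x s hv hw
  have h := bl_trans hv (bl_symm hw)
  rwa [← Nat.two_mul] at h

theorem bl_walk {v u : V} (p : H.Walk v u) : u ∈ bl H v p.length := by
  induction p with
  | nil => exact bl_self _ _
  | cons h p ih =>
    rw [SimpleGraph.Walk.length_cons, Nat.add_comm]
    exact bl_trans (bl_adj h) ih

theorem t_grow : S_GROW := by
  classical
  intro V _ H v s
  constructor
  · intro h0 u hu
    obtain ⟨p, hp⟩ := (mem_cmp.1 hu).exists_isPath
    rcases le_or_gt p.length s with h1 | h1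
    · exact bl_mono v h1 (bl_walk p)
    · exfalso
      have h2 : (fun i : Fin (s + 1) => p.getVert i) ∈ pths H v s := by
        refine mem_pths.2 ⟨by simp, ?_, ?_⟩
        · intro i j hij
          have hi : (i : ℕ) ≤ p.length := by have := i.2; omega
          have hj : (j : ℕ) ≤ p.length := by have := j.2; omega
          exact Fin.ext (hp.getVert_injOn hi hj hij)
        · intro i
          have hi : (i : ℕ) < p.length := by have := i.2; omega
          have := p.adj_getVert_succ hi
          simpa using this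
      rw [h0] at h2
      exact absurd h2 (notMem_empty _)
  · intro w hw
    obtain ⟨h1, -, h3⟩ := mem_pths.1 hw
    have key : ∀ i : Fin (s + 1), w i ∈ bl H v (i : ℕ) := by
      intro i
      induction i using Fin.induction with
      | zero => rw [h1]; exact bl_self _ _
      | succ i ih =>
        rw [Fin.val_succ]
        exact bl_succ.2 (Or.inr ⟨_, ih, h3 i⟩)
    intro i
    exact bl_mono v (by have := i.2; omega) (key i)

end Pool.Agent.W378.KF
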